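import Pool.Agent.Lib.MP_8d00da_gt.Exact

/-!
# The Poincaré constant of i.i.d. variables conditioned on a family of order relations
is that of one of the variables
-/

open MeasureTheory

namespace Pool.Agent.Lib.MP_8d00da_gt.h97.PosetExactThm

/-- `‖f - ∫ f dμ‖_{L²(μ)} ≤ D · ‖|∇f|‖_{L²(μ)}` for every Lipschitz function `f`.
The Poincaré constant `D_Poin(μ)` of the problem is the least such `D`. -/
def PoincareWith {V : Type*} [NormedAddCommGroup V] [NormedSpace ℝ V] [MeasurableSpace V]
    (μ : Measure V) (D : ℝ) : Prop :=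
  ∀ f : V → ℝ, (∃ L : NNReal, LipschitzWith L f) →
    eLpNorm (fun x => f x - ∫ y, f y ∂μ) 2 μ ≤
      ENNReal.ofReal D * eLpNorm (fun x => ‖fderiv ℝ f x‖) 2 μ

/-- The vectors whose coordinates satisfy the order relations `x i ≤ x j`, `(i, j) ∈ E`. -/
def orderCone {n : ℕ} (E : Set (Fin n × Fin n)) : Set (Fin n → ℝ) :=
  {x | ∀ e ∈ E, x e.1 ≤ x e.2}

/-- The law, on Euclidean space `ℝⁿ`, of a vector with i.i.d. coordinates of law `ρ`, conditioned
on the order relations `E`. -/
noncomputable def orderedLaw (ρ : Measure ℝ) {n : ℕ} (E : Set (Fin n × Fin n)) :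
    Measure (EuclideanSpace ℝ (Fin n)) :=
  (ProbabilityTheory.cond (Measure.pi fun _ : Fin n => ρ) (orderCone E)).map (WithLp.toLp 2)

/-- **The exact Poincaré constant.** Let `ρ` be an absolutely continuous probability measure on the
line, `n ≥ 1`, and let `E` be any set of order relations between the coordinates which has positive
probability under `ρ^{⊗n}`. Then the conditioned law has the same Poincaré constant as `ρ`. -/
theorem result (ρ : Measure ℝ) [IsProbabilityMeasure ρ] (hρ : ρ ≪ volume) (n : ℕ) (hn : 1 ≤ n)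
    (E : Set (Fin n × Fin n)) (hE : Measure.pi (fun _ : Fin n => ρ) (orderCone E) ≠ 0) (D : ℝ) :
    PoincareWith (orderedLaw ρ E) D ↔ PoincareWith ρ D :=
  Pool.Agent.Lib.MP_8d00da_gt.ord_iff hρ hn hE

end Pool.Agent.Lib.MP_8d00da_gt.h97.PosetExactThm
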